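import Pool.Agent.helper25.OAU.Spec

set_option autoImplicit false

/-! Row oau:CR (MP_d58e27_lc): all real signed areas can be realized -/

namespace Pool.Agent.helper25.OAU

open N68a2faeb N793a5b8e
open Pool.Agent.helper56.SGE hiding Pt
open Pool.Agent.helper56.SGE.QSys
open Pool.Agent.helper98.Tsei Pool.Agent.H54.PT
open Pool.Agent.helper14.AU

theorem CR_frame (p q : Pt) (h : p ≠ q) : ∃ φ : ℝ → ℝ → Pt, φ 0 0 = p ∧ φ 1 0 = q ∧
    (∀ a b c d e f : ℝ, dt (φ a b) (φ c d) (φ e f) = (c - a) * (f - b) - (e - a) * (d - b)) ∧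
    (∀ z, ∃ X Y, z = φ X Y) ∧ (∀ a b c d, φ a b = φ c d → a = c ∧ b = d) := by
  obtain ⟨p1, p2⟩ := p
  obtain ⟨q1, q2⟩ := q
  obtain ⟨u1, hu1⟩ : ∃ u1, u1 = q1 - p1 := ⟨_, rfl⟩
  obtain ⟨u2, hu2⟩ : ∃ u2, u2 = q2 - p2 := ⟨_, rfl⟩
  obtain ⟨N, hN⟩ : ∃ N, N = u1 * u1 + u2 * u2 := ⟨_, rfl⟩
  have hN0 : N ≠ 0 := by
    intro h0
    apply h
    have h1 : u1 = 0 := by nlinarith [mul_self_nonneg u1, mul_self_nonneg u2]
    have h2 : u2 = 0 := by nlinarith [mul_self_nonneg u1, mul_self_nonneg u2]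
    ext
    · simp only; linarith
    · simp only; linarith
  have key : (u1 * u1 + u2 * u2) / N = 1 := by rw [← hN]; exact div_self hN0
  refine ⟨fun X Y => (p1 + X * u1 - Y * (u2 / N), p2 + X * u2 + Y * (u1 / N)), ?_, ?_, ?_, ?_, ?_⟩
  · simp
  · simp [hu1, hu2]
  · intro a b c d e f
    unfold dt
    simp only
    have : ∀ x y : ℝ, x = y * ((u1 * u1 + u2 * u2) / N) → x = y := by
      intro x y hxy
      rw [key, mul_one] at hxy
      exact hxy
    apply this
    ring
  · rintro ⟨z1, z2⟩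
    refine ⟨((z1 - p1) * u1 + (z2 - p2) * u2) / N, (z2 - p2) * u1 - (z1 - p1) * u2, ?_⟩
    ext
    · simp only
      have e : p1 + ((z1 - p1) * u1 + (z2 - p2) * u2) / N * u1 -
          ((z2 - p2) * u1 - (z1 - p1) * u2) * (u2 / N) =
          p1 + (z1 - p1) * ((u1 * u1 + u2 * u2) / N) := by ring
      rw [e, key]; ring
    · simp only
      have e : p2 + ((z1 - p1) * u1 + (z2 - p2) * u2) / N * u2 +
          ((z2 - p2) * u1 - (z1 - p1) * u2) * (u1 / N) =
          p2 + (z2 - p2) * ((u1 * u1 + u2 * u2) / N) := by ring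
      rw [e, key]; ring
  · intro a b c d hh
    have e1 : p1 + a * u1 - b * (u2 / N) = p1 + c * u1 - d * (u2 / N) := congrArg Prod.fst hh
    have e2 : p2 + a * u2 + b * (u1 / N) = p2 + c * u2 + d * (u1 / N) := congrArg Prod.snd hh
    constructor
    · have e3 : (a - c) * N = 0 := by
        rw [hN]
        have : (a - c) * (u1 * u1 + u2 * u2) =
          u1 * ((p1 + a * u1 - b * (u2 / N)) - (p1 + c * u1 - d * (u2 / N))) +
          u2 * ((p2 + a * u2 + b * (u1 / N)) - (p2 + c * u2 + d * (u1 / N))) := by ring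
        rw [this, e1, e2]; ring
      rcases mul_eq_zero.1 e3 with h' | h'
      · linarith
      · exact absurd h' hN0
    · have e3 : (b - d) * ((u1 * u1 + u2 * u2) / N) = 0 := by
        have : (b - d) * ((u1 * u1 + u2 * u2) / N) =
          u1 * ((p2 + a * u2 + b * (u1 / N)) - (p2 + c * u2 + d * (u1 / N))) -
          u2 * ((p1 + a * u1 - b * (u2 / N)) - (p1 + c * u1 - d * (u2 / N))) := by ring
        rw [this, e1, e2]; ring
      rw [key, mul_one] at e3
      linarith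

theorem CR_real (ρ A G A' B B' C : ℝ) : ∃ w X Y c s t s' t' : ℝ, (c ≠ 0 ∨ G ≠ 0) ∧
    c * Y - (ρ + X) * G = A' ∧ (s ≠ 0 ∨ t ≠ 0) ∧ s * A - w * t = B ∧ (s' ≠ 0 ∨ t' ≠ 0) ∧
    s' * Y - X * t' = B' ∧ s * t' - s' * t = C ∧ (w ≠ X ∨ A ≠ Y) := by
  have hY : A ≠ |A| + 1 := by
    have := le_abs_self A
    intro h; linarith
  have hY0 : |A| + 1 ≠ 0 := by
    have := abs_nonneg A
    intro h; linarith
  by_cases hH : A' + (ρ - B') * G = 0
  · by_cases hG : G = 0
    · subst hG
      have hA' : A' = 0 := by linarith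
      subst hA'
      by_cases hAB : A = 0 ∧ B = B'
      · obtain ⟨rfl, rfl⟩ := hAB
        by_cases hB : B = 0
        · subst hB
          refine ⟨1, 0, 0, 1, 1, 0, if C = 0 then 1 else 0, C, Or.inl one_ne_zero, by ring,
            Or.inl one_ne_zero, by ring, ?_, by ring, by ring, Or.inl one_ne_zero⟩
          by_cases hC : C = 0
          · left; simp [hC]
          · right; exact hC
        · refine ⟨-B, -B / 2, 0, 1, 0, 1, -C, 2, Or.inl one_ne_zero, by ring,
            Or.inr one_ne_zero, by ring, Or.inr two_ne_zero, by ring, by ring, Or.inl ?_⟩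
          intro h
          apply hB
          linarith
      · refine ⟨-B, -B', 0, 1, 0, 1, -C, 1, Or.inl one_ne_zero, by ring,
          Or.inr one_ne_zero, by ring, Or.inr one_ne_zero, by ring, by ring, ?_⟩
        by_cases hA : A = 0
        · left
          intro h
          exact hAB ⟨hA, by linarith⟩
        · right; exact hA
    · refine ⟨-B, -C * (|A| + 1) - B', |A| + 1, -C * G, 0, 1, -C, 1, Or.inr hG, ?_,
        Or.inr one_ne_zero, by ring, Or.inr one_ne_zero, by ring, by ring, Or.inr hY⟩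
      linear_combination -hH
  · refine ⟨-B, -C * (|A| + 1) - B', |A| + 1, (A' + (ρ - B') * G) / (|A| + 1) - C * G, 0, 1, -C, 1,
      ?_, ?_, Or.inr one_ne_zero, by ring, Or.inr one_ne_zero, by ring, by ring, Or.inr hY⟩
    · by_cases hG : G = 0
      · left
        subst hG
        simp only [mul_zero, add_zero, sub_zero] at hH ⊢
        exact div_ne_zero hH hY0
      · right; exact hG
    · have e : (A' + (ρ - B') * G) / (|A| + 1) * (|A| + 1) = A' + (ρ - B') * G :=
        div_mul_cancel₀ _ hY0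
      linear_combination e

theorem CR_neq (p q : Pt) (h : p ≠ q) (E : ℝ) : ∃ o : Pt, dt p q o = E := by
  obtain ⟨φ, h0, h1, hd, -, -⟩ := CR_frame p q h
  refine ⟨φ 0 E, ?_⟩
  rw [← h0, ← h1, hd]
  ring

theorem CR : CR_stmt := by
  refine ⟨?_, fun p q h E => CR_neq p q h E, ?_⟩
  · intro p q r hpq hr A G A' B B' C E
    obtain ⟨φ, h0, h1, hd, hs, hi⟩ := CR_frame p q hpq
    obtain ⟨ρ, Y0, hrr⟩ := hs r
    have hY0 : Y0 = 0 := by
      rw [hrr, ← h0, ← h1, hd] at hr
      linarith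
    subst hY0
    obtain ⟨w, X, Y, c, s, t, s', t', e1, e2, e3, e4, e5, e6, e7, e8⟩ := CR_real ρ A G A' B B' C
    have hf : φ (ρ + w) A ≠ φ (ρ + X) Y := by
      intro h
      obtain ⟨a, b⟩ := hi _ _ _ _ h
      rcases e8 with e | e
      · exact e (by linarith)
      · exact e b
    obtain ⟨o, ho⟩ := CR_neq _ _ hf E
    refine ⟨φ (ρ + w) A, φ (ρ + X) Y, φ c G, φ (ρ + s) t, φ (ρ + s') t', o, ?_, ?_, ?_, ?_, ?_, ?_,
      ?_, ?_, ?_, hf, ho⟩
    · rw [← h0, ← h1, hd]; ring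
    · rw [← h0, ← h1, hd]; ring
    · rw [← h0]
      intro h
      obtain ⟨a, b⟩ := hi _ _ _ _ h
      rcases e1 with e | e
      · exact e a.symm
      · exact e b.symm
    · rw [← h0, hd, ← e2]; ring
    · rw [hrr]
      intro h
      obtain ⟨a, b⟩ := hi _ _ _ _ h
      rcases e3 with e | e
      · exact e (by linarith)
      · exact e b.symm
    · rw [hrr, hd, ← e4]; ring
    · rw [hrr]
      intro h
      obtain ⟨a, b⟩ := hi _ _ _ _ h
      rcases e5 with e | e
      · exact e (by linarith)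
      · exact e b.symm
    · rw [hrr, hd, ← e6]; ring
    · rw [hrr, hd, ← e7]; ring
  · intro p q r hD B1 B2 E
    obtain ⟨D, hDD⟩ : ∃ D, D = dt p q r := ⟨_, rfl⟩
    rw [← hDD] at hD
    obtain ⟨a, ha⟩ : ∃ a, a = B1 / D := ⟨_, rfl⟩
    obtain ⟨c, hc⟩ : ∃ c, c = -B2 / D := ⟨_, rfl⟩
    obtain ⟨d, hd⟩ : ∃ d, d = (E + B1 * c) / D := ⟨_, rfl⟩
    have ha' : a * D = B1 := by rw [ha]; exact div_mul_cancel₀ _ hD
    have hc' : c * D = -B2 := by rw [hc]; exact div_mul_cancel₀ _ hD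
    have hd' : d * D = E + B1 * c := by rw [hd]; exact div_mul_cancel₀ _ hD
    have hDe : D = (q.1 - p.1) * (r.2 - p.2) - (r.1 - p.1) * (q.2 - p.2) := hDD
    refine ⟨(p.1 + (q.1 - p.1) + a * (r.1 - p.1), p.2 + (q.2 - p.2) + a * (r.2 - p.2)),
      (p.1 + c * (q.1 - p.1) + d * (r.1 - p.1), p.2 + c * (q.2 - p.2) + d * (r.2 - p.2)),
      ?_, ?_, ?_, ?_⟩
    · rw [← ha', hDe]; unfold dt; simp only; ring
    · have : B2 = -(c * D) := by rw [hc']; ring
      rw [this, hDe]; unfold dt; simp only; ring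
    · intro h
      have e1 : p.1 = p.1 + (q.1 - p.1) + a * (r.1 - p.1) := congrArg Prod.fst h
      have e2 : p.2 = p.2 + (q.2 - p.2) + a * (r.2 - p.2) := congrArg Prod.snd h
      apply hD
      rw [hDe]
      linear_combination (-(r.2 - p.2)) * e1 + (r.1 - p.1) * e2
    · have : E = d * D - a * D * c := by rw [hd', ha']; ring
      rw [this, hDe]; unfold dt; simp only; ring

end Pool.Agent.helper25.OAU
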