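import Pool.Agent.helper25.OAU.Spec

set_option autoImplicit false

/-! Row oau:OT0 (MP_d58e27_lc): the list of triples is a system -/

namespace Pool.Agent.helper25.OAU

open N68a2faeb N793a5b8e
open Pool.Agent.helper56.SGE hiding Pt
open Pool.Agent.helper56.SGE.QSys
open Pool.Agent.helper98.Tsei Pool.Agent.H54.PT
open Pool.Agent.helper14.AU

/-- the largest entry -/
def OT0_mx (t : ℕ × ℕ × ℕ) : ℕ := max t.1 (max t.2.1 t.2.2)

theorem OT0_sub {s t : ℕ × ℕ × ℕ} (h : ∀ i ∈ verts s, i ∈ verts t) :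
    (s.1 = t.1 ∨ s.1 = t.2.1 ∨ s.1 = t.2.2) ∧ (s.2.1 = t.1 ∨ s.2.1 = t.2.1 ∨ s.2.1 = t.2.2) ∧
      (s.2.2 = t.1 ∨ s.2.2 = t.2.1 ∨ s.2.2 = t.2.2) := by
  simpa [verts] using h

/-- a block of triples whose largest entries are in `[lo, hi)` -/
structure OT0_Blk (lo hi : ℕ) (T : List (ℕ × ℕ × ℕ)) : Prop where
  ne : ∀ t ∈ T, t.1 ≠ t.2.1 ∧ t.2.1 ≠ t.2.2 ∧ t.1 ≠ t.2.2
  lo : ∀ t ∈ T, lo ≤ OT0_mx t
  hi : ∀ t ∈ T, OT0_mx t < hi
  nodup : T.Nodup
  uniq : ∀ s ∈ T, ∀ t ∈ T, (∀ i ∈ verts s, i ∈ verts t) → s = t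

theorem OT0_mx_eq {s t : ℕ × ℕ × ℕ} (hs : s.1 ≠ s.2.1 ∧ s.2.1 ≠ s.2.2 ∧ s.1 ≠ s.2.2)
    (h : ∀ i ∈ verts s, i ∈ verts t) : OT0_mx s = OT0_mx t := by
  have := OT0_sub h
  unfold OT0_mx
  omega

theorem OT0_nil (c : ℕ) : OT0_Blk c c [] :=
  ⟨by simp, by simp, by simp, List.nodup_nil, by simp⟩

theorem OT0_append {a b c : ℕ} {S T : List (ℕ × ℕ × ℕ)} (hS : OT0_Blk a b S)
    (hT : OT0_Blk b c T) (hab : a ≤ b) (hbc : b ≤ c) : OT0_Blk a c (S ++ T) := by
  refine ⟨?_, ?_, ?_, ?_, ?_⟩
  · intro t ht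
    rcases List.mem_append.1 ht with h | h
    · exact hS.ne t h
    · exact hT.ne t h
  · intro t ht
    rcases List.mem_append.1 ht with h | h
    · exact hS.lo t h
    · exact hab.trans (hT.lo t h)
  · intro t ht
    rcases List.mem_append.1 ht with h | h
    · exact (hS.hi t h).trans_le hbc
    · exact hT.hi t h
  · rw [List.nodup_append']
    refine ⟨hS.nodup, hT.nodup, ?_⟩
    intro t h1 h2
    have e1 := hS.hi t h1
    have e2 := hT.lo t h2
    omega
  · intro s hs t ht h
    rcases List.mem_append.1 hs with h1 | h1 <;> rcases List.mem_append.1 ht with h2 | h2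
    · exact hS.uniq s h1 t h2 h
    · have e0 := OT0_mx_eq (hS.ne s h1) h
      have e1 := hS.hi s h1
      have e2 := hT.lo t h2
      omega
    · have e0 := OT0_mx_eq (hT.ne s h1) h
      have e1 := hS.hi t h2
      have e2 := hT.lo s h1
      omega
    · exact hT.uniq s h1 t h2 h

theorem OT0_mono {a b c : ℕ} {S : List (ℕ × ℕ × ℕ)} (hS : OT0_Blk b c S) {d : ℕ} (hab : a ≤ b)
    (hcd : c ≤ d) : OT0_Blk a d S :=
  ⟨hS.ne, fun t ht => hab.trans (hS.lo t ht), fun t ht => (hS.hi t ht).trans_le hcd, hS.nodup,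
    hS.uniq⟩

theorem OT0_r5 (c x y z : ℕ) (hxy : x ≠ y) (hx : x < c) (hy : y < c) (hz : z < c) :
    OT0_Blk c (c + 3) (r5 c x y z) := by
  refine ⟨?_, ?_, ?_, ?_, ?_⟩
  · intro t ht
    simp only [r5, List.mem_cons, List.not_mem_nil, or_false] at ht
    rcases ht with rfl | rfl | rfl | rfl | rfl <;> simp only <;> omega
  · intro t ht
    simp only [r5, List.mem_cons, List.not_mem_nil, or_false] at ht
    unfold OT0_mx
    rcases ht with rfl | rfl | rfl | rfl | rfl <;> simp only <;> omega
  · intro t ht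
    simp only [r5, List.mem_cons, List.not_mem_nil, or_false] at ht
    unfold OT0_mx
    rcases ht with rfl | rfl | rfl | rfl | rfl <;> simp only <;> omega
  · simp only [r5, List.nodup_cons, List.mem_cons, List.not_mem_nil, or_false, Prod.mk.injEq,
      not_or, not_false_eq_true, List.nodup_nil, and_true]
    omega
  · intro s hs t ht h
    have hh := OT0_sub h
    simp only [r5, List.mem_cons, List.not_mem_nil, or_false] at hs ht
    rcases hs with rfl | rfl | rfl | rfl | rfl <;> rcases ht with rfl | rfl | rfl | rfl | rfl <;>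
      first
      | rfl
      | (exfalso
         simp only at hh
         omega)

theorem OT0_gad (L : List (ℕ × ℕ × ℕ)) (c : ℕ)
    (hL : ∀ t ∈ L, t.1 ≠ t.2.1 ∧ t.1 < c ∧ t.2.1 < c ∧ t.2.2 < c) :
    OT0_Blk c (c + 3 * L.length) (gad c L) := by
  induction L generalizing c with
  | nil => simpa [gad] using OT0_nil c
  | cons t L ih =>
    obtain ⟨h1, h2, h3, h4⟩ := hL t List.mem_cons_self
    have e1 := OT0_r5 c _ _ _ h1 h2 h3 h4
    have e2 := ih (c + 3) (fun s hs => by
      have := hL s (List.mem_cons_of_mem _ hs)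
      omega)
    have e3 := OT0_append e1 e2 (by omega) (by omega)
    rw [gad, List.length_cons]
    exact OT0_mono e3 (le_refl _) (by omega)

theorem OT0_rl (N0 b : ℕ) (it : Item) (hok : ItOk N0 it) (hb : N0 ≤ b) :
    ∀ t ∈ rl b it, t.1 ≠ t.2.1 ∧ t.1 < b + 6 ∧ t.2.1 < b + 6 ∧ t.2.2 < b + 6 := by
  have h1 := hok.p_lt
  have h2 := hok.q_lt
  have h3 := hok.r_lt
  have h4 := hok.pq
  intro t ht
  unfold rl at ht
  split_ifs at ht with k0 k1
  · simp only [List.mem_cons, List.not_mem_nil, or_false] at ht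
    rcases ht with rfl | rfl | rfl | rfl | rfl | rfl | rfl <;> simp only <;> omega
  · simp only [List.mem_cons, List.not_mem_nil, or_false] at ht
    subst ht
    simp only
    omega
  · simp only [List.mem_cons, List.not_mem_nil, or_false] at ht
    rcases ht with rfl | rfl | rfl
    · simp only
      omega
    · have h5 := hok.pr k0 k1
      simp only
      omega
    · simp only
      omega

theorem OT0_rl_len (b : ℕ) (it : Item) : (rl b it).length ≤ 7 := by
  unfold rl
  split_ifs <;> simp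

theorem OT0_trip (N0 b : ℕ) (it : Item) (hok : ItOk N0 it) (hb : N0 ≤ b) :
    OT0_Blk b (b + 27) (trip' b it) := by
  unfold trip'
  split_ifs with k
  · have h := OT0_gad (rl b it) (b + 6) (OT0_rl N0 b it hok hb)
    have hl := OT0_rl_len b it
    exact OT0_mono h (by omega) (by omega)
  · have h1 := hok.p_lt
    have h2 := hok.q_lt
    have h3 := hok.r_lt
    have h4 := hok.pq
    have h5 := hok.pr (by omega) (by omega)
    have h6 := hok.qr (by omega) (by omega) (by omega)
    refine ⟨?_, ?_, ?_, ?_, ?_⟩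
    · intro t ht
      simp only [List.mem_cons, List.not_mem_nil, or_false] at ht
      rcases ht with rfl | rfl <;> simp only <;> omega
    · intro t ht
      simp only [List.mem_cons, List.not_mem_nil, or_false] at ht
      unfold OT0_mx
      rcases ht with rfl | rfl <;> simp only <;> omega
    · intro t ht
      simp only [List.mem_cons, List.not_mem_nil, or_false] at ht
      unfold OT0_mx
      rcases ht with rfl | rfl <;> simp only <;> omega
    · simp only [List.nodup_cons, List.mem_cons, List.not_mem_nil, or_false, Prod.mk.injEq,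
        not_false_eq_true, List.nodup_nil, and_true]
      omega
    · intro s hs t ht h
      have hh := OT0_sub h
      simp only [List.mem_cons, List.not_mem_nil, or_false] at hs ht
      rcases hs with rfl | rfl <;> rcases ht with rfl | rfl <;>
        first
        | rfl
        | (exfalso
           simp only at hh
           omega)

theorem OT0_sys (N0 G : ℕ) (it : ℕ → Item) (hok : ∀ g < G, ItOk N0 (it g)) :
    OT0_Blk N0 (N0 + 27 * G) (sysT' N0 G it) := by
  induction G with
  | zero => simpa [sysT'] using OT0_nil N0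
  | succ G ih =>
    have e1 := ih (fun g hg => hok g (by omega))
    have e2 := OT0_trip N0 (N0 + 27 * G) (it G) (hok G (by omega)) (by omega)
    have e3 := OT0_append e1 e2 (by omega) (by omega)
    have e4 : sysT' N0 (G + 1) it = sysT' N0 G it ++ trip' (N0 + 27 * G) (it G) := by
      unfold sysT'
      rw [List.range_succ, List.flatMap_append]
      simp
    rw [e4]
    exact OT0_mono e3 (le_refl _) (by omega)

theorem OT0 : OT0_stmt := fun N0 G it hok =>
  ⟨(OT0_sys N0 G it hok).ne, (OT0_sys N0 G it hok).nodup, (OT0_sys N0 G it hok).uniq⟩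

end Pool.Agent.helper25.OAU
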