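import Pool.Agent.helper25.OAU.Spec

set_option autoImplicit false

/-! Row oau:OT2 (MP_d58e27_lc): completeness of the list of triples -/

namespace Pool.Agent.helper25.OAU

open N68a2faeb N793a5b8e
open Pool.Agent.helper56.SGE hiding Pt
open Pool.Agent.helper56.SGE.QSys
open Pool.Agent.helper98.Tsei Pool.Agent.H54.PT
open Pool.Agent.helper14.AU

/-- the number prescribed by the values of `A` at the triples of `r5 c x y z` -/
noncomputable def OT2_lam (A : ℕ × ℕ × ℕ → ℝ) (c : ℕ) (t : ℕ × ℕ × ℕ) : ℝ :=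
  2 * A (t.1, t.2.1, c) - 2 * A (c + 1, c, t.2.2) *
    (2 * A (t.1, t.2.1, c) + 2 * A (t.2.1, t.1, c + 2)) / (2 * A (c + 1, c, c + 2))

/-- what the gadgets of a list need -/
def OT2_H (A : ℕ × ℕ × ℕ → ℝ) (p : ℕ → Pt) : ℕ → List (ℕ × ℕ × ℕ) → Prop
  | _, [] => True
  | c, t :: L => (p t.1 ≠ p t.2.1 ∧ dt (p t.1) (p t.2.1) (p t.2.2) = OT2_lam A c t) ∧
      OT2_H A p (c + 3) L

theorem OT2_sd (a b c : Pt) (v : ℝ) (h : dt a b c = 2 * v) : sarea a b c = v := by
  unfold dt at h
  unfold sarea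
  linarith

theorem OT2_congr (A : ℕ × ℕ × ℕ → ℝ) (p p' : ℕ → Pt) (m : ℕ) (L : List (ℕ × ℕ × ℕ))
    (hL : ∀ t ∈ L, t.1 < m ∧ t.2.1 < m ∧ t.2.2 < m) (hp : ∀ n < m, p' n = p n) (c : ℕ)
    (h : OT2_H A p c L) : OT2_H A p' c L := by
  induction L generalizing c with
  | nil => trivial
  | cons t L ih =>
    obtain ⟨h1, h2⟩ := h
    obtain ⟨m1, m2, m3⟩ := hL t List.mem_cons_self
    refine ⟨?_, ih (fun s hs => hL s (List.mem_cons_of_mem _ hs)) _ h2⟩
    rw [hp _ m1, hp _ m2, hp _ m3]
    exact h1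

theorem OT2_gad (hRS : RS_stmt) (A : ℕ × ℕ × ℕ → ℝ) (L : List (ℕ × ℕ × ℕ)) (c : ℕ)
    (hL : ∀ t ∈ L, t.1 < c ∧ t.2.1 < c ∧ t.2.2 < c) (p : ℕ → Pt) (h : OT2_H A p c L)
    (hA : ∀ t ∈ gad c L, 0 < A t) : ∃ p' : ℕ → Pt, (∀ n < c, p' n = p n) ∧
      ∀ t ∈ gad c L, sarea (p' t.1) (p' t.2.1) (p' t.2.2) = A t := by
  induction L generalizing c p with
  | nil => exact ⟨p, fun _ _ => rfl, fun t ht => by simp [gad] at ht⟩
  | cons s L ih =>
    obtain ⟨⟨h1, h2⟩, h3⟩ := h
    obtain ⟨m1, m2, m3⟩ := hL s List.mem_cons_self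
    rw [gad] at hA
    have a1 := hA (s.1, s.2.1, c) (by simp [r5])
    have a2 := hA (s.1, s.2.1, c + 1) (by simp [r5])
    have a3 := hA (s.2.1, s.1, c + 2) (by simp [r5])
    have a4 := hA (c + 1, c, c + 2) (by simp [r5])
    have a5 := hA (c + 1, c, s.2.2) (by simp [r5])
    obtain ⟨c0, c1, c2, q1, q2, q3, q4, q5⟩ := hRS.2.2 _ _ (p s.2.2) h1
      (2 * A (s.1, s.2.1, c)) (2 * A (s.1, s.2.1, c + 1)) (2 * A (s.2.1, s.1, c + 2))
      (2 * A (c + 1, c, c + 2)) (2 * A (c + 1, c, s.2.2)) (by linarith) (by linarith)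
      (by linarith) (by linarith) (by linarith) (fun _ => h2)
    obtain ⟨p1, hp1⟩ : ∃ p1 : ℕ → Pt, p1 = fun n => if n = c then c0 else if n = c + 1 then c1
      else if n = c + 2 then c2 else p n := ⟨_, rfl⟩
    have z0 : p1 c = c0 := by rw [hp1]; simp
    have z1 : p1 (c + 1) = c1 := by rw [hp1]; simp
    have z2 : p1 (c + 2) = c2 := by rw [hp1]; simp
    have zz : ∀ n < c, p1 n = p n := by
      intro n hn
      rw [hp1]
      simp only
      rw [if_neg (by omega), if_neg (by omega), if_neg (by omega)]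
    obtain ⟨p', e1, e2⟩ := ih (c + 3) (fun t ht => by
        have := hL t (List.mem_cons_of_mem _ ht)
        omega) p1
      (OT2_congr A p p1 c L (fun t ht => hL t (List.mem_cons_of_mem _ ht)) zz _ h3)
      (fun t ht => hA t (List.mem_append_right _ ht))
    have y0 : p' c = c0 := by rw [e1 _ (by omega), z0]
    have y1 : p' (c + 1) = c1 := by rw [e1 _ (by omega), z1]
    have y2 : p' (c + 2) = c2 := by rw [e1 _ (by omega), z2]
    have yy : ∀ n < c, p' n = p n := fun n hn => by rw [e1 _ (by omega), zz n hn]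
    refine ⟨p', yy, ?_⟩
    intro t ht
    rw [gad] at ht
    rcases List.mem_append.1 ht with ht | ht
    · simp only [r5, List.mem_cons, List.not_mem_nil, or_false] at ht
      apply OT2_sd
      rcases ht with rfl | rfl | rfl | rfl | rfl
      · simp only; rw [yy _ m1, yy _ m2, y0]; exact q1
      · simp only; rw [yy _ m1, yy _ m2, y1]; exact q2
      · simp only; rw [yy _ m1, yy _ m2, y2]; exact q3
      · simp only; rw [y0, y1, y2]; exact q4
      · simp only; rw [y0, y1, yy _ m3]; exact q5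
    · exact e2 t ht

theorem OT2_rl (N0 b : ℕ) (it : Item) (hok : ItOk N0 it) (hb : N0 ≤ b) :
    ∀ t ∈ rl b it, t.1 < b + 6 ∧ t.2.1 < b + 6 ∧ t.2.2 < b + 6 := by
  have h1 := hok.p_lt
  have h2 := hok.q_lt
  have h3 := hok.r_lt
  intro t ht
  unfold rl at ht
  split_ifs at ht with k0 k1
  · simp only [List.mem_cons, List.not_mem_nil, or_false] at ht
    rcases ht with rfl | rfl | rfl | rfl | rfl | rfl | rfl <;> simp only <;> omega
  · simp only [List.mem_cons, List.not_mem_nil, or_false] at ht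
    subst ht
    simp only
    omega
  · simp only [List.mem_cons, List.not_mem_nil, or_false] at ht
    rcases ht with rfl | rfl | rfl <;> simp only <;> omega

/-- entries -/
def OT2_E (S : ℕ → Prop) (t : ℕ × ℕ × ℕ) : Prop := S t.1 ∧ S t.2.1 ∧ S t.2.2

theorem OT2_gad_ent (S : ℕ → Prop) (L : List (ℕ × ℕ × ℕ)) (c : ℕ) (hL : ∀ t ∈ L, OT2_E S t)
    (hS : ∀ i, c ≤ i → i < c + 3 * L.length → S i) : ∀ t ∈ gad c L, OT2_E S t := by
  induction L generalizing c with
  | nil => simp [gad]
  | cons s L ih =>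
    intro t ht
    rw [gad] at ht
    rw [List.length_cons] at hS
    obtain ⟨s1, s2, s3⟩ := hL s List.mem_cons_self
    have c0 : S c := hS c (by omega) (by omega)
    have c1 : S (c + 1) := hS (c + 1) (by omega) (by omega)
    have c2 : S (c + 2) := hS (c + 2) (by omega) (by omega)
    rcases List.mem_append.1 ht with ht | ht
    · simp only [r5, List.mem_cons, List.not_mem_nil, or_false] at ht
      rcases ht with rfl | rfl | rfl | rfl | rfl
      · exact ⟨s1, s2, c0⟩
      · exact ⟨s1, s2, c1⟩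
      · exact ⟨s2, s1, c2⟩
      · exact ⟨c1, c0, c2⟩
      · exact ⟨c1, c0, s3⟩
    · exact ih (c + 3) (fun t ht => hL t (List.mem_cons_of_mem _ ht))
        (fun i h1 h2 => hS i (by omega) (by omega)) t ht

theorem OT2_trip_ent (N0 b : ℕ) (it : Item) (hok : ItOk N0 it) :
    ∀ t ∈ trip' b it, OT2_E (fun e => e < N0 ∨ (b ≤ e ∧ e < b + 27)) t := by
  have h1 := hok.p_lt
  have h2 := hok.q_lt
  have h3 := hok.r_lt
  unfold trip'
  split_ifs with k
  · apply OT2_gad_ent
    · intro t ht
      unfold rl at ht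
      unfold OT2_E
      split_ifs at ht with k0 k1
      · simp only [List.mem_cons, List.not_mem_nil, or_false] at ht
        rcases ht with rfl | rfl | rfl | rfl | rfl | rfl | rfl <;> simp only <;> omega
      · simp only [List.mem_cons, List.not_mem_nil, or_false] at ht
        subst ht
        simp only
        omega
      · simp only [List.mem_cons, List.not_mem_nil, or_false] at ht
        rcases ht with rfl | rfl | rfl <;> simp only <;> omega
    · intro i hi1 hi2
      have : (rl b it).length ≤ 7 := by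
        unfold rl
        split_ifs <;> simp
      omega
  · intro t ht
    unfold OT2_E
    simp only [List.mem_cons, List.not_mem_nil, or_false] at ht
    rcases ht with rfl | rfl <;> simp only <;> omega

/-- the fresh points of one item -/
theorem OT2_item (hRS : RS_stmt) (hCR : CR_stmt) (N0 b : ℕ) (it : Item) (hok : ItOk N0 it)
    (hb : N0 ≤ b) (P : ℕ → Pt) (A : ℕ × ℕ × ℕ → ℝ) (hA : ∀ t ∈ trip' b it, 0 < A t) (α β : ℝ)
    (hα : ¬ it.1 ≤ 2 → α = A (it.2.1, it.2.2.1, b)) (hβ : ¬ it.1 ≤ 2 → β = A (it.2.2.1, it.2.2.2, b))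
    (hG : GiveO P α β it) : ∃ p : ℕ → Pt, (∀ n < N0, p n = P n) ∧
      ∀ t ∈ trip' b it, sarea (p t.1) (p t.2.1) (p t.2.2) = A t := by
  have h1 := hok.p_lt
  have h2 := hok.q_lt
  have h3 := hok.r_lt
  by_cases k : it.1 ≤ 2
  · have hAg : ∀ t ∈ gad (b + 6) (rl b it), 0 < A t := by
      unfold trip' at hA
      rw [if_pos k] at hA
      exact hA
    have main : ∃ p : ℕ → Pt, (∀ n < N0, p n = P n) ∧ OT2_H A p (b + 6) (rl b it) := by
      unfold GiveO at hG
      unfold rl
      split_ifs at hG ⊢ with k0 k1 k2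
      · obtain ⟨l, hl⟩ : ∃ l : ℕ → ℕ × ℕ × ℕ → ℝ, l = OT2_lam A := ⟨_, rfl⟩
        obtain ⟨f0, f1, g, k, k', o, q1, q2, q3, q4, q5, q6, q7, q8, q9, q10, q11⟩ :=
          hCR.1 _ _ _ hG.1 hG.2 (l (b + 6) (it.2.1, it.2.2.1, b))
            (l (b + 6 + 3) (it.2.1, it.2.2.1, b + 2))
            (l (b + 6 + 3 + 3) (it.2.1, b + 2, b + 1))
            (l (b + 6 + 3 + 3 + 3) (it.2.2.2, b + 3, b))
            (l (b + 6 + 3 + 3 + 3 + 3) (it.2.2.2, b + 4, b + 1))
            (l (b + 6 + 3 + 3 + 3 + 3 + 3) (it.2.2.2, b + 3, b + 4))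
            (l (b + 6 + 3 + 3 + 3 + 3 + 3 + 3) (b, b + 1, b + 5))
        refine ⟨fun n => if n = b then f0 else if n = b + 1 then f1 else if n = b + 2 then g else
          if n = b + 3 then k else if n = b + 4 then k' else if n = b + 5 then o else P n,
          fun n hn => ?_, ?_⟩
        · simp only
          rw [if_neg (by omega), if_neg (by omega), if_neg (by omega), if_neg (by omega),
            if_neg (by omega), if_neg (by omega)]
        obtain ⟨p, hp⟩ : ∃ p : ℕ → Pt, p = fun n => if n = b then f0 else if n = b + 1 then f1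
          else if n = b + 2 then g else if n = b + 3 then k else if n = b + 4 then k' else
          if n = b + 5 then o else P n := ⟨_, rfl⟩
        rw [← hp]
        have z0 : p b = f0 := by rw [hp]; simp
        have z1 : p (b + 1) = f1 := by rw [hp]; simp
        have z2 : p (b + 2) = g := by rw [hp]; simp
        have z3 : p (b + 3) = k := by rw [hp]; simp
        have z4 : p (b + 4) = k' := by rw [hp]; simp
        have z5 : p (b + 5) = o := by rw [hp]; simp
        have zz : ∀ n < N0, p n = P n := by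
          intro n hn
          rw [hp]
          simp only
          rw [if_neg (by omega), if_neg (by omega), if_neg (by omega), if_neg (by omega),
            if_neg (by omega), if_neg (by omega)]
        simp only [OT2_H, ← hl, z0, z1, z2, z3, z4, z5, zz _ h1, zz _ h2, zz _ h3]
        exact ⟨⟨hG.1, q1⟩, ⟨hG.1, q2⟩, ⟨q3, q4⟩, ⟨q5, q6⟩, ⟨q7, q8⟩, ⟨q5, q9⟩, ⟨q10, q11⟩,
          trivial⟩
      · obtain ⟨o, ho⟩ := hCR.2.1 _ _ hG (OT2_lam A (b + 6) (it.2.1, it.2.2.1, b))
        refine ⟨fun n => if n = b then o else P n, fun n hn => ?_, ?_⟩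
        · simp only
          rw [if_neg (by omega)]
        · simp only [OT2_H, if_true]
          rw [if_neg (by omega), if_neg (by omega)]
          exact ⟨⟨hG, ho⟩, trivial⟩
      · obtain ⟨s1, s2, q1, q2, q3, q4⟩ := hCR.2.2 _ _ _ hG
          (OT2_lam A (b + 6) (it.2.1, it.2.2.1, b)) (OT2_lam A (b + 6 + 3) (it.2.1, it.2.2.2, b + 1))
          (OT2_lam A (b + 6 + 3 + 3) (it.2.1, b, b + 1))
        have n1 : P it.2.1 ≠ P it.2.2.1 := by
          intro h
          apply hG
          unfold dt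
          rw [h]
          ring
        have n2 : P it.2.1 ≠ P it.2.2.2 := by
          intro h
          apply hG
          unfold dt
          rw [h]
          ring
        refine ⟨fun n => if n = b then s1 else if n = b + 1 then s2 else P n, fun n hn => ?_, ?_⟩
        · simp only
          rw [if_neg (by omega), if_neg (by omega)]
        obtain ⟨p, hp⟩ : ∃ p : ℕ → Pt, p = fun n => if n = b then s1 else if n = b + 1 then s2
          else P n := ⟨_, rfl⟩
        rw [← hp]
        have z0 : p b = s1 := by rw [hp]; simp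
        have z1 : p (b + 1) = s2 := by rw [hp]; simp
        have zz : ∀ n < N0, p n = P n := by
          intro n hn
          rw [hp]
          simp only
          rw [if_neg (by omega), if_neg (by omega)]
        simp only [OT2_H, z0, z1, zz _ h1, zz _ h2, zz _ h3]
        exact ⟨⟨n1, q1⟩, ⟨n2, q2⟩, ⟨q3, q4⟩, trivial⟩
      · omega
    obtain ⟨p, hp1, hp2⟩ := main
    obtain ⟨p', e1, e2⟩ := OT2_gad hRS A (rl b it) (b + 6) (OT2_rl N0 b it hok hb) p hp2 hAg
    refine ⟨p', fun n hn => by rw [e1 n (by omega), hp1 n hn], ?_⟩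
    intro t ht
    unfold trip' at ht
    rw [if_pos k] at ht
    exact e2 t ht
  · unfold GiveO at hG
    rw [if_neg (by omega), if_neg (by omega), if_neg (by omega)] at hG
    obtain ⟨F, q1, q2⟩ := hG
    refine ⟨fun n => if n = b then F else P n, fun n hn => ?_, ?_⟩
    · simp only
      rw [if_neg (by omega)]
    · intro t ht
      unfold trip' at ht
      rw [if_neg k] at ht
      simp only [List.mem_cons, List.not_mem_nil, or_false] at ht
      rcases ht with rfl | rfl
      · simp only [if_true]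
        rw [if_neg (by omega), if_neg (by omega), q1, hα k]
      · simp only [if_true]
        rw [if_neg (by omega), if_neg (by omega), q2, hβ k]

theorem OT2 (hRS : RS_stmt) (hCR : CR_stmt) : OT2_stmt := by
  classical
  intro N0 G it hok H A hA
  have hmem : ∀ g < G, ∀ t ∈ trip' (N0 + 27 * g) (it g), t ∈ sysT' N0 G it := by
    intro g hg t ht
    unfold sysT'
    rw [List.mem_flatMap]
    exact ⟨g, List.mem_range.2 hg, ht⟩
  obtain ⟨α, hα⟩ : ∃ α : ℕ → ℝ, α = fun g => if g < G ∧ ¬ (it g).1 ≤ 2 then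
    A ((it g).2.1, (it g).2.2.1, N0 + 27 * g) else 1 := ⟨_, rfl⟩
  obtain ⟨β, hβ⟩ : ∃ β : ℕ → ℝ, β = fun g => if g < G ∧ ¬ (it g).1 ≤ 2 then
    A ((it g).2.2.1, (it g).2.2.2, N0 + 27 * g) else 1 := ⟨_, rfl⟩
  have hpos : ∀ g, 0 < α g ∧ 0 < β g := by
    intro g
    rw [hα, hβ]
    simp only
    by_cases hg : g < G ∧ ¬ (it g).1 ≤ 2
    · rw [if_pos hg, if_pos hg]
      constructor
      · apply hA
        apply hmem g hg.1
        unfold trip'
        rw [if_neg hg.2]
        simp
      · apply hA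
        apply hmem g hg.1
        unfold trip'
        rw [if_neg hg.2]
        simp
    · rw [if_neg hg, if_neg hg]
      exact ⟨one_pos, one_pos⟩
  obtain ⟨P, hP⟩ := H α β hpos
  have hF : ∀ g : ℕ, ∃ F : ℕ → Pt, g < G → ((∀ n < N0, F n = P n) ∧
      ∀ t ∈ trip' (N0 + 27 * g) (it g), sarea (F t.1) (F t.2.1) (F t.2.2) = A t) := by
    intro g
    by_cases hg : g < G
    · obtain ⟨F, hF⟩ := OT2_item hRS hCR N0 (N0 + 27 * g) (it g) (hok g hg) (by omega) P A
        (fun t ht => hA t (hmem g hg t ht)) (α g) (β g)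
        (fun hk => by rw [hα]; simp only; rw [if_pos ⟨hg, hk⟩])
        (fun hk => by rw [hβ]; simp only; rw [if_pos ⟨hg, hk⟩]) (hP g hg)
      exact ⟨F, fun _ => hF⟩
    · exact ⟨fun _ => (0, 0), fun h => absurd h hg⟩
  choose F hF using hF
  refine ⟨fun n => if n < N0 then P n else F ((n - N0) / 27) n, ?_⟩
  intro t ht
  unfold sysT' at ht
  rw [List.mem_flatMap] at ht
  obtain ⟨g, hg, ht⟩ := ht
  rw [List.mem_range] at hg
  obtain ⟨f1, f2⟩ := hF g hg
  have key : ∀ e : ℕ, (e < N0 ∨ (N0 + 27 * g ≤ e ∧ e < N0 + 27 * g + 27)) →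
      (if e < N0 then P e else F ((e - N0) / 27) e) = F g e := by
    intro e he
    by_cases h : e < N0
    · rw [if_pos h, f1 e h]
    · rw [if_neg h]
      have : (e - N0) / 27 = g := by omega
      rw [this]
  obtain ⟨k1, k2, k3⟩ := OT2_trip_ent N0 (N0 + 27 * g) (it g) (hok g hg) t ht
  simp only
  rw [key _ k1, key _ k2, key _ k3]
  exact f2 t ht

end Pool.Agent.helper25.OAU
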